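import Pool.Agent.helper17.HH.SpecR

set_option autoImplicit false

open scoped Pointwise

namespace Pool.Agent.HH

/-- the separation: two different pairs have images at distance at least `d` -/
theorem RNA_sep (M : Finset ℝ) (r1 ρ d x' : ℝ) (hr1 : 0 < r1) (_hd : 0 < d) (hdr : d / r1 ≤ ρ)
    (hx0 : 0 ≤ x') (hx1 : x' ≤ 1) (h0 : (0 : ℝ) ∈ QQ M r1) (h1 : (1 : ℝ) ∈ QQ M r1)
    (hq : ∀ y ∈ QQ M r1, ρ < |x' - y|) (M1 M2 : Finset ℝ) (hM1 : M1 ⊆ M) (hM2 : M2 ⊆ M)
    (hs1 : ∀ a ∈ M1, ∀ b ∈ M1, a ≠ b → d ≤ |a - b|) (hs2 : ∀ a ∈ M2, ∀ b ∈ M2, a ≠ b → r1 ≤ |a - b|)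
    (p q : ℝ × ℝ) (hp : p ∈ M1 ×ˢ M2) (hq' : q ∈ M1 ×ˢ M2) (hne : p ≠ q) :
    d ≤ |(p.1 + x' * p.2) - (q.1 + x' * q.2)| := by
  obtain ⟨a, b⟩ := p
  obtain ⟨a', b'⟩ := q
  rw [Finset.mem_product] at hp hq'
  simp only at hp hq' ⊢
  by_cases hb : b = b'
  · subst hb
    have ha : a ≠ a' := by
      intro h
      exact hne (by rw [h])
    have h2 := hs1 a hp.1 a' hq'.1 ha
    have h3 : a + x' * b - (a' + x' * b) = a - a' := by ring
    rw [h3]
    exact h2
  · by_contra hcon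
    push Not at hcon
    have hbb := hs2 b hp.2 b' hq'.2 hb
    have hbn : b - b' ≠ 0 := sub_ne_zero.mpr hb
    have hbpos : 0 < |b - b'| := lt_of_lt_of_le hr1 hbb
    set y : ℝ := (a' - a) / (b - b') with hy
    have h4 : |x' - y| * |b - b'| < d := by
      rw [← abs_mul]
      have h5 : (x' - y) * (b - b') = a + x' * b - (a' + x' * b') := by
        rw [hy, sub_mul, div_mul_cancel₀ _ hbn]
        ring
      rw [h5]
      exact hcon
    have h6 : |x' - y| < ρ := by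
      have h7 : |x' - y| * r1 < d := lt_of_le_of_lt (mul_le_mul_of_nonneg_left hbb (abs_nonneg _)) h4
      have h8 : |x' - y| < d / r1 := by
        rw [lt_div_iff₀ hr1]
        exact h7
      linarith
    have h9 : ρ < |x' - y| := by
      rcases lt_or_ge y 0 with hyn | hyn
      · have h10 := hq 0 h0
        rw [sub_zero, abs_of_nonneg hx0] at h10
        have h11 : x' - y ≤ |x' - y| := le_abs_self _
        linarith
      · rcases le_or_gt y 1 with hy1 | hy1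
        · apply hq
          refine ⟨hyn, hy1, a', hM1 hq'.1, a, hM1 hp.1, b, hM2 hp.2, b', hM2 hq'.2, hbb, hy⟩
        · have h10 := hq 1 h1
          rw [abs_sub_comm, abs_of_nonneg (by linarith : (0 : ℝ) ≤ 1 - x')] at h10
          have h11 : y - x' ≤ |x' - y| := by
            rw [abs_sub_comm]
            exact le_abs_self _
          linarith
    linarith

/-- **Row RNA** -/
theorem RNA_proof (h : RCV_stmt) (h1 : RMS_stmt) (h2 : RKL_stmt) : RNA_stmt := by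
  obtain ⟨C1, hC1, H1⟩ := h1
  obtain ⟨C2, hC2, H2⟩ := h2
  have hC12 : 1 ≤ C1 * C2 := by nlinarith
  refine ⟨24 * (C1 * C2), by linarith, ?_⟩
  intro G M δ D K r1 ρ x x' hδ hδ1 hD hK hG hM hr1 hr11 hρ hρ1 hδρ hδr hx hx' hq hsm
  obtain ⟨hx0, hx1, m3, hm3, m4, hm4, m5, hm5, m6, hm6, hr, hxe⟩ := hx
  set r : ℝ := |m5 - m6| with hrdef
  have hrpos : 0 < r := lt_of_lt_of_le hr1 hr
  have h56 : m5 - m6 ≠ 0 := by
    intro h0
    rw [hrdef, h0, abs_zero] at hrpos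
    exact lt_irrefl _ hrpos
  have hr8 : r ≤ 8 := by
    obtain ⟨a1, a2, -⟩ := hM m5 hm5
    obtain ⟨b1, b2, -⟩ := hM m6 hm6
    rw [hrdef, abs_le]
    constructor <;> linarith
  have h34 : |m3 - m4| ≤ r := by
    have e1 : m3 - m4 = x * (m5 - m6) := by
      rw [hxe, div_mul_cancel₀ _ h56]
    rw [e1, abs_mul, abs_of_nonneg hx0, ← hrdef]
    nlinarith
  have hδr' : δ ≤ r := le_trans hδr hr
  -- the scale
  set mn : ℝ := min r 1 with hmn
  have hmn0 : 0 < mn := lt_min hrpos one_pos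
  have hmn1 : mn ≤ 1 := min_le_right _ _
  have hmnr : r1 ≤ mn := le_min hr hr11
  set d : ℝ := δ / mn with hd
  have hd0 : 0 < d := div_pos hδ hmn0
  have hδd : δ ≤ d := by
    rw [hd, le_div_iff₀ hmn0]
    nlinarith
  have hdr : d ≤ δ / r1 := by
    rw [hd]
    exact div_le_div_of_nonneg_left hδ.le hr1 hmnr
  have hd1 : d ≤ 1 := by
    refine le_trans hdr ?_
    rw [div_le_one hr1]
    exact hδr
  have hdρ : d / r1 ≤ ρ := by
    rw [div_le_iff₀ hr1]
    refine le_trans hdr ?_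
    rw [div_le_iff₀ hr1]
    nlinarith [hδρ]
  set T : ℝ := 6 * C1 * K ^ 26 * D ^ 2 * Real.sqrt (1 / d) with hT
  have hK0 : 0 < K := by linarith
  have hD0 : 0 < D := by linarith
  have hC10 : 0 < C1 := by linarith
  have hC20 : 0 < C2 := by linarith
  have hsd : 0 < Real.sqrt (1 / d) := Real.sqrt_pos.mpr (by positivity)
  have hT0 : 0 < T := by
    rw [hT]
    positivity
  -- bounds of the cell numbers
  have hcov : ∀ m1 ∈ M, ∀ m2 ∈ M, (cov d (G + dil (m1 + x' * m2) G) : ℝ) ≤ T := by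
    intro m1 hm1 m2 hm2
    have e1 := (H1 G δ D K m1 m2 m3 m4 m5 m6 r x x' hδ hδ1 hD hK hG (hM m1 hm1) (hM m2 hm2) (hM m3 hm3) (hM m4 hm4)
      (hM m5 hm5) (hM m6 hm6) hrdef hδr' h34 hxe hx0 hx').1
    have hmain : 0 ≤ C1 * K ^ 26 * D ^ 2 := by positivity
    rcases le_or_gt r 1 with hr1' | hr1'
    · have e2 : mn = r := min_eq_left hr1'
      have e3 : d = δ / r := by rw [hd, e2]
      have e4 : (1 : ℝ) / d = r / δ := by
        rw [e3, one_div_div]
      rw [hT, e4, e3]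
      refine le_trans e1 ?_
      have e5 : 0 ≤ Real.sqrt (r / δ) := Real.sqrt_nonneg _
      have e6 : 0 ≤ C1 * K ^ 26 * D ^ 2 * Real.sqrt (r / δ) := by positivity
      nlinarith
    · have e2 : mn = 1 := min_eq_right hr1'.le
      have e3 : d = δ := by rw [hd, e2, div_one]
      have e4 : δ / r ≤ δ := by
        rw [div_le_iff₀ hrpos]
        nlinarith
      have e5 := h.co (δ / r) δ (G + dil (m1 + x' * m2) G) (div_pos hδ hrpos) e4
      have e6 : (cov δ (G + dil (m1 + x' * m2) G) : ℝ) ≤ 2 * (cov (δ / r) (G + dil (m1 + x' * m2) G) : ℝ) := by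
        exact_mod_cast e5
      have e7 : Real.sqrt (r / δ) ≤ 3 * Real.sqrt (1 / δ) := by
        have e8 : (3 : ℝ) = Real.sqrt 9 := by
          rw [show (9 : ℝ) = 3 ^ 2 by norm_num, Real.sqrt_sq (by norm_num)]
        rw [e8, ← Real.sqrt_mul (by norm_num)]
        apply Real.sqrt_le_sqrt
        rw [mul_one_div]
        apply div_le_div_of_nonneg_right _ hδ.le
        linarith
      rw [hT, e3]
      have e9 : C1 * K ^ 26 * D ^ 2 * Real.sqrt (r / δ) ≤ C1 * K ^ 26 * D ^ 2 * (3 * Real.sqrt (1 / δ)) :=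
        mul_le_mul_of_nonneg_left e7 hmain
      calc (cov δ (G + dil (m1 + x' * m2) G) : ℝ) ≤ 2 * (cov (δ / r) (G + dil (m1 + x' * m2) G) : ℝ) := e6
        _ ≤ 2 * (C1 * K ^ 26 * D ^ 2 * Real.sqrt (r / δ)) := by linarith
        _ ≤ 2 * (C1 * K ^ 26 * D ^ 2 * (3 * Real.sqrt (1 / δ))) := by linarith
        _ = 6 * C1 * K ^ 26 * D ^ 2 * Real.sqrt (1 / δ) := by ring
  -- separated subsets
  obtain ⟨M1, hM1, hs1, hc1⟩ := h.sp d M hd0
  obtain ⟨M2, hM2, hs2, hc2⟩ := h.sp r1 M hr1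
  have h0Q : (0 : ℝ) ∈ QQ M r1 := by
    refine ⟨le_rfl, by norm_num, m5, hm5, m5, hm5, m5, hm5, m6, hm6, hr, ?_⟩
    rw [sub_self, zero_div]
  have h1Q : (1 : ℝ) ∈ QQ M r1 := by
    refine ⟨by norm_num, le_rfl, m5, hm5, m6, hm6, m5, hm5, m6, hm6, hr, ?_⟩
    rw [div_self h56]
  have hx'0 : 0 ≤ x' := by
    rcases hx' with e | e <;> rw [e] <;> linarith
  have hx'1 : x' ≤ 1 := by
    rcases hx' with e | e <;> rw [e] <;> linarith
  have hsep := RNA_sep M r1 ρ d x' hr1 hd0 hdρ hx'0 hx'1 h0Q h1Q hq M1 M2 hM1 hM2 hs1 hs2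
  set MM : Finset ℝ := (M1 ×ˢ M2).image (fun p : ℝ × ℝ => p.1 + x' * p.2) with hMM
  have hcard : MM.card = M1.card * M2.card := by
    rw [hMM, Finset.card_image_of_injOn, Finset.card_product]
    intro p hp q hq2 hpq
    by_contra hne
    have e1 := hsep p q hp hq2 hne
    simp only at hpq
    rw [hpq, sub_self, abs_zero] at e1
    linarith
  have hMMabs : ∀ m ∈ MM, |m| ≤ 32 := by
    intro m hm
    rw [hMM, Finset.mem_image] at hm
    obtain ⟨p, hp, rfl⟩ := hm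
    rw [Finset.mem_product] at hp
    obtain ⟨a1, a2, -⟩ := hM p.1 (hM1 hp.1)
    obtain ⟨b1, b2, -⟩ := hM p.2 (hM2 hp.2)
    rw [abs_le]
    constructor <;> nlinarith
  have hMMsep : ∀ m ∈ MM, ∀ m' ∈ MM, m ≠ m' → d ≤ |m - m'| := by
    intro m hm m' hm' hne
    rw [hMM, Finset.mem_image] at hm hm'
    obtain ⟨p, hp, rfl⟩ := hm
    obtain ⟨q, hq2, rfl⟩ := hm'
    apply hsep p q hp hq2
    intro e
    exact hne (by rw [e])
  have hMMcov : ∀ m ∈ MM, (cov d (G + dil m G) : ℝ) ≤ T := by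
    intro m hm
    rw [hMM, Finset.mem_image] at hm
    obtain ⟨p, hp, rfl⟩ := hm
    rw [Finset.mem_product] at hp
    exact hcov p.1 (hM1 hp.1) p.2 (hM2 hp.2)
  -- the smallness condition
  have hsq : Real.sqrt d ≤ Real.sqrt (1 / r1) * Real.sqrt δ := by
    rw [← Real.sqrt_mul (by positivity)]
    apply Real.sqrt_le_sqrt
    rw [one_div_mul_eq_div]
    exact hdr
  have hsd' : Real.sqrt (1 / d) * Real.sqrt d = 1 := by
    rw [← Real.sqrt_mul (by positivity), one_div_mul_cancel hd0.ne', Real.sqrt_one]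
  have hss : Real.sqrt (1 / d) * Real.sqrt (1 / d) = 1 / d := Real.mul_self_sqrt (by positivity)
  have hcond : C2 * D ^ 2 * T ≤ 1 / d := by
    have e1 : 24 * (C1 * C2) * K ^ 26 * D ^ 4 * Real.sqrt d ≤ 1 := by
      refine le_trans ?_ hsm
      rw [mul_assoc (24 * (C1 * C2) * K ^ 26 * D ^ 4)]
      exact mul_le_mul_of_nonneg_left hsq (by positivity)
    have e2 : 24 * (C1 * C2) * K ^ 26 * D ^ 4 ≤ Real.sqrt (1 / d) := by
      calc 24 * (C1 * C2) * K ^ 26 * D ^ 4 = (24 * (C1 * C2) * K ^ 26 * D ^ 4) * (Real.sqrt (1 / d) * Real.sqrt d) := by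
            rw [hsd', mul_one]
        _ = (24 * (C1 * C2) * K ^ 26 * D ^ 4 * Real.sqrt d) * Real.sqrt (1 / d) := by ring
        _ ≤ 1 * Real.sqrt (1 / d) := mul_le_mul_of_nonneg_right e1 hsd.le
        _ = Real.sqrt (1 / d) := one_mul _
    have e3 : 0 ≤ C1 * C2 * K ^ 26 * D ^ 4 := by positivity
    calc C2 * D ^ 2 * T = (6 * (C1 * C2 * K ^ 26 * D ^ 4)) * Real.sqrt (1 / d) := by
          rw [hT]
          ring
      _ ≤ Real.sqrt (1 / d) * Real.sqrt (1 / d) := by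
          apply mul_le_mul_of_nonneg_right _ hsd.le
          linarith
      _ = 1 / d := hss
  have hfin := H2 G MM δ D d T hδ hδd hd1 hD hG hMMabs hMMsep hT0 hMMcov hcond
  refine ⟨d, hδd, hdr, ?_⟩
  have hlog : Real.log (1 / d) ≤ Real.log (1 / δ) := by
    apply Real.log_le_log (by positivity)
    exact one_div_le_one_div_of_le hδ hδd
  have hcc : (cov d M : ℝ) * cov r1 M ≤ 4 * (MM.card : ℝ) := by
    have e1 : (cov d M : ℝ) ≤ 2 * (M1.card : ℝ) := by exact_mod_cast hc1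
    have e2 : (cov r1 M : ℝ) ≤ 2 * (M2.card : ℝ) := by exact_mod_cast hc2
    rw [hcard, Nat.cast_mul]
    calc (cov d M : ℝ) * cov r1 M ≤ (2 * (M1.card : ℝ)) * (2 * (M2.card : ℝ)) := by gcongr
      _ = 4 * ((M1.card : ℝ) * (M2.card : ℝ)) := by ring
  calc (cov d M : ℝ) * cov r1 M ≤ 4 * (MM.card : ℝ) := hcc
    _ ≤ 4 * (C2 * D ^ 4 * T * (1 + Real.log (1 / d))) := by linarith
    _ ≤ 4 * (C2 * D ^ 4 * T * (1 + Real.log (1 / δ))) := by
        have e1 : 0 ≤ C2 * D ^ 4 * T := by positivity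
        have e2 := mul_le_mul_of_nonneg_left (add_le_add_right hlog 1) e1
        linarith
    _ = 24 * (C1 * C2) * K ^ 26 * D ^ 6 * Real.sqrt (1 / d) * (1 + Real.log (1 / δ)) := by
        rw [hT]
        ring

end Pool.Agent.HH
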